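import Mathlib

/-! The definitions used in `Pool/Agent/Results/MP_1d2509_nt/NearOptimalExponent.lean`. -/

set_option autoImplicit false

namespace Pool.Agent.StrongBh

/-- The counting function `S(n) = |S ∩ {1, ..., n}|`. -/
noncomputable def count (S : Set ℕ) (n : ℕ) : ℕ := (S ∩ Set.Icc 1 n).ncard

/-- `S` is an `α`-strong `B_h` set: for all `x_1, ..., x_h, y_1, ..., y_h ∈ S` (repetitions allowed)
with `max x ≠ max y`, the distance of the two sums is at least every `x_i^α` and every `y_i^α`. -/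
def IsStrongB (α : ℝ) (h : ℕ) (S : Set ℕ) : Prop :=
  ∀ x y : Fin h → ℕ, (∀ i, x i ∈ S) → (∀ i, y i ∈ S) →
    Finset.univ.sup x ≠ Finset.univ.sup y →
    ∀ i, max ((x i : ℝ) ^ α) ((y i : ℝ) ^ α) ≤ |∑ j, (x j : ℝ) - ∑ j, (y j : ℝ)|

end Pool.Agent.StrongBh
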