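import Mathlib
import Pool.Agent.StrongBh.Defs

set_option autoImplicit false

namespace Pool.Agent.StrongBh.NearOpt

open Finset

/-! ## Power sums modulo a prime -/

section newton

variable {p : ℕ} [Fact p.Prime] {σ τ : Type} [Fintype σ] [Fintype τ]

lemma esymm_eq (f : σ → ZMod p) (g : τ → ZMod p) (m : ℕ) (hm : m < p)
    (hps : ∀ j, 1 ≤ j → j ≤ m → ∑ i, f i ^ j = ∑ i, g i ^ j) :
    ∀ k ≤ m, MvPolynomial.aeval f (MvPolynomial.esymm σ (ZMod p) k) =
      MvPolynomial.aeval g (MvPolynomial.esymm τ (ZMod p) k) := by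
  classical
  intro k
  induction k using Nat.strong_induction_on with
  | _ k ih =>
    intro hk
    rcases Nat.eq_zero_or_pos k with rfl | hk0
    · simp [MvPolynomial.esymm_zero]
    · have h1 := congrArg (MvPolynomial.aeval f) (MvPolynomial.mul_esymm_eq_sum σ (ZMod p) k)
      have h2 := congrArg (MvPolynomial.aeval g) (MvPolynomial.mul_esymm_eq_sum τ (ZMod p) k)
      simp only [map_mul, map_natCast, map_pow, map_neg, map_one, map_sum] at h1 h2
      have hk' : ((k : ℕ) : ZMod p) ≠ 0 := by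
        intro h
        rw [ZMod.natCast_eq_zero_iff] at h
        exact absurd (Nat.le_of_dvd hk0 h) (by omega)
      apply mul_left_cancel₀ hk'
      rw [h1, h2]
      congr 1
      apply Finset.sum_congr rfl
      intro a ha
      rw [mem_filter, HasAntidiagonal.mem_antidiagonal] at ha
      rw [ih a.1 ha.2 (by omega)]
      congr 1
      simp only [MvPolynomial.psum, map_sum, map_pow, MvPolynomial.aeval_X]
      exact hps a.2 (by omega) (by omega)

/-- equal power sums: equal multisets -/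
lemma multiset_eq (f : σ → ZMod p) (g : τ → ZMod p) (m : ℕ) (hm : m < p)
    (hσ : Fintype.card σ = m) (hτ : Fintype.card τ = m)
    (hps : ∀ j, 1 ≤ j → j ≤ m → ∑ i, f i ^ j = ∑ i, g i ^ j) :
    (univ : Finset σ).val.map f = (univ : Finset τ).val.map g := by
  classical
  have h1 := esymm_eq f g m hm hps
  have h2 : (((univ : Finset σ).val.map f).map fun t => Polynomial.X - Polynomial.C t).prod =
      (((univ : Finset τ).val.map g).map fun t => Polynomial.X - Polynomial.C t).prod := by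
    rw [Multiset.prod_X_sub_X_eq_sum_esymm, Multiset.prod_X_sub_X_eq_sum_esymm]
    have h3 : Multiset.card ((univ : Finset σ).val.map f) = m := by
      rw [Multiset.card_map]; exact hσ
    have h4 : Multiset.card ((univ : Finset τ).val.map g) = m := by
      rw [Multiset.card_map]; exact hτ
    rw [h3, h4]
    apply Finset.sum_congr rfl
    intro j hj
    have hj' : j ≤ m := by
      have := mem_range.1 hj
      omega
    have h5 := h1 j hj'
    rw [MvPolynomial.aeval_esymm_eq_multiset_esymm, MvPolynomial.aeval_esymm_eq_multiset_esymm] at h5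
    rw [h5]
  have h6 := congrArg Polynomial.roots h2
  rwa [Polynomial.roots_multiset_prod_X_sub_C, Polynomial.roots_multiset_prod_X_sub_C] at h6

end newton

/-- uniqueness of digits -/
lemma digits_unique (B : ℕ) : ∀ (n : ℕ) (c d : ℕ → ℕ), (∀ j < n, c j < B) → (∀ j < n, d j < B) →
    ∑ j ∈ range n, c j * B ^ j = ∑ j ∈ range n, d j * B ^ j → ∀ j < n, c j = d j := by
  intro n
  induction n with
  | zero => intro c d _ _ _ j hj; omega
  | succ n ih =>
    intro c d hc hd h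
    rw [sum_range_succ', sum_range_succ'] at h
    have e1 : ∀ c : ℕ → ℕ, ∑ k ∈ range n, c (k + 1) * B ^ (k + 1) =
        B * ∑ k ∈ range n, c (k + 1) * B ^ k := by
      intro c
      rw [mul_sum]
      apply sum_congr rfl
      intro k _
      ring
    rw [e1, e1, pow_zero, mul_one, mul_one] at h
    have hB : 0 < B := lt_of_le_of_lt (Nat.zero_le _) (hc 0 (by omega))
    have h0 : c 0 = d 0 := by
      have h1 := congrArg (· % B) h
      simp only [Nat.mul_add_mod] at h1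
      rwa [Nat.mod_eq_of_lt (hc 0 (by omega)), Nat.mod_eq_of_lt (hd 0 (by omega))] at h1
    have h2 : ∑ k ∈ range n, c (k + 1) * B ^ k = ∑ k ∈ range n, d (k + 1) * B ^ k := by
      rw [h0] at h
      exact Nat.eq_of_mul_eq_mul_left hB (Nat.add_right_cancel h)
    have h3 := ih (fun k => c (k + 1)) (fun k => d (k + 1)) (fun j hj => hc _ (by omega))
      (fun j hj => hd _ (by omega)) h2
    intro j hj
    rcases j with _ | j
    · exact h0
    · exact h3 j (by omega)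


/-! ## One class -/

section cls

variable (h p U : ℕ)

/-- the upper digits of the elements of a class, base `4 h p` -/
def top (z : ZMod p) : ℕ := ∑ j ∈ range (h - 1), (z ^ (h - 1 - j)).val * (4 * h * p) ^ j

/-- the elements of a class -/
def el (z : ZMod p) : ℕ := U * ((4 * h * top h p z + 1) * (4 * h * p) + (z ^ h).val)

variable {h p U}

lemma le_el (z : ZMod p) : U * (4 * h * p) ≤ el h p U z := by
  unfold el
  apply Nat.mul_le_mul_left
  calc 4 * h * p = 1 * (4 * h * p) := by ring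
    _ ≤ (4 * h * top h p z + 1) * (4 * h * p) := Nat.mul_le_mul_right _ (by omega)
    _ ≤ _ := Nat.le_add_right _ _

/-- equal multisets of classes: equal maxima -/
lemma sup_le_of_multiset {m : ℕ} (hm : 4 * h * m ≤ U * (4 * h * p)) (hh : 1 ≤ h)
    {x y : Fin h → ℕ}
    [Fintype {i // ∃ z : ZMod p, x i = el h p U z}]
    [Fintype {i // ∃ z : ZMod p, y i = el h p U z}]
    (hx : ∀ i, x i ≤ m ∨ ∃ z : ZMod p, x i = el h p U z)
    (f : {i // ∃ z : ZMod p, x i = el h p U z} → ZMod p) (hf : ∀ i, x i.1 = el h p U (f i))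
    (g : {i // ∃ z : ZMod p, y i = el h p U z} → ZMod p) (hg : ∀ i, y i.1 = el h p U (g i))
    (hne : Nonempty {i // ∃ z : ZMod p, y i = el h p U z})
    (heq : univ.val.map f = univ.val.map g) : univ.sup x ≤ univ.sup y := by
  apply Finset.sup_le
  intro i _
  by_cases hi : ∃ z : ZMod p, x i = el h p U z
  · have h1 : f ⟨i, hi⟩ ∈ univ.val.map f := Multiset.mem_map_of_mem f (mem_univ_val _)
    rw [heq, Multiset.mem_map] at h1
    obtain ⟨j, -, hj⟩ := h1
    have h2 : x i = y j.1 := by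
      rw [hg j, hj]
      exact hf ⟨i, hi⟩
    rw [h2]
    exact Finset.le_sup (f := y) (mem_univ _)
  · obtain ⟨j⟩ := hne
    have h3 : x i ≤ m := by
      rcases hx i with h4 | h4
      · exact h4
      · exact absurd h4 hi
    have h5 : m ≤ U * (4 * h * p) := by
      have : m ≤ 4 * h * m := Nat.le_mul_of_pos_left m (by omega)
      omega
    have h6 : U * (4 * h * p) ≤ y j.1 := by
      rw [hg j]
      exact le_el _
    exact (h3.trans (h5.trans h6)).trans (Finset.le_sup (f := y) (mem_univ _))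

/-- equal sums of upper digits: equal power sums -/
lemma top_sum_eq [Fact p.Prime] {κ κ' : Type} [Fintype κ] [Fintype κ'] (hh : 2 ≤ h) (hp0 : 0 < p)
    (f : κ → ZMod p) (g : κ' → ZMod p) (hκ : Fintype.card κ ≤ h) (hκ' : Fintype.card κ' ≤ h)
    (hT : ∑ i, top h p (f i) = ∑ i, top h p (g i)) :
    ∀ e, 1 ≤ e → e ≤ h - 1 → ∑ i, f i ^ e = ∑ i, g i ^ e := by
  have h1 : ∑ j ∈ range (h - 1), (∑ i, ((f i) ^ (h - 1 - j)).val) * (4 * h * p) ^ j =
      ∑ j ∈ range (h - 1), (∑ i, ((g i) ^ (h - 1 - j)).val) * (4 * h * p) ^ j := by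
    unfold top at hT
    rw [Finset.sum_comm, Finset.sum_comm (s := univ)] at hT
    simp only [Finset.sum_mul]
    exact hT
  have hbd : ∀ {κ : Type} [Fintype κ] (φ : κ → ZMod p), Fintype.card κ ≤ h → ∀ e,
      ∑ i, ((φ i) ^ e).val < 4 * h * p := by
    intro κ _ φ hκ e
    have h2 : h * (p - 1) < 4 * h * p := by
      have h3 : h * (p - 1) < h * p := Nat.mul_lt_mul_of_pos_left (by omega) (by omega)
      have h4 : 4 * h * p = h * p + 3 * (h * p) := by ring
      omega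
    refine lt_of_le_of_lt ?_ h2
    calc ∑ i, ((φ i) ^ e).val ≤ ∑ _i : κ, (p - 1) := by
          apply Finset.sum_le_sum
          intro i _
          have := ZMod.val_lt ((φ i) ^ e)
          omega
      _ = Fintype.card κ * (p - 1) := by
          rw [Finset.sum_const, Finset.card_univ, smul_eq_mul]
      _ ≤ h * (p - 1) := Nat.mul_le_mul_right _ hκ
  have h2 := digits_unique (4 * h * p) (h - 1) _ _ (fun j _ => hbd f hκ (h - 1 - j))
    (fun j _ => hbd g hκ' (h - 1 - j)) h1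
  intro e he1 he2
  have h3 := h2 (h - 1 - e) (by omega)
  have h4 : h - 1 - (h - 1 - e) = e := by omega
  rw [h4] at h3
  have h5 := congrArg (Nat.cast : ℕ → ZMod p) h3
  push_cast at h5
  simpa only [ZMod.natCast_zmod_val] using h5

open Classical in
/-- decomposition of a sum -/
lemma decomp [Fact p.Prime] {m : ℕ} (x : Fin h → ℕ)
    (hx : ∀ i, x i ≤ m ∨ ∃ z : ZMod p, x i = el h p U z)
    (f : {i // ∃ z : ZMod p, x i = el h p U z} → ZMod p) (hf : ∀ i, x i.1 = el h p U (f i)) :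
    Fintype.card {i // ∃ z : ZMod p, x i = el h p U z} ≤ h ∧
    (∑ i, ((f i) ^ h).val ≤ h * (p - 1)) ∧
    ∃ R : ℕ, R ≤ h * m ∧ (Fintype.card {i // ∃ z : ZMod p, x i = el h p U z} = h → R = 0) ∧
      ∑ i, x i = U * ((4 * h * (∑ i, top h p (f i)) +
        Fintype.card {i // ∃ z : ZMod p, x i = el h p U z}) * (4 * h * p) +
        ∑ i, ((f i) ^ h).val) + R := by
  have hcard : Fintype.card {i // ∃ z : ZMod p, x i = el h p U z} ≤ h := by
    have := Fintype.card_subtype_le (fun i : Fin h => ∃ z : ZMod p, x i = el h p U z)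
    rwa [Fintype.card_fin] at this
  refine ⟨hcard, ?_, ?_⟩
  · calc ∑ i, ((f i) ^ h).val ≤ ∑ _i : {i // ∃ z : ZMod p, x i = el h p U z}, (p - 1) := by
          apply Finset.sum_le_sum
          intro i _
          have := ZMod.val_lt ((f i) ^ h)
          omega
      _ = Fintype.card {i // ∃ z : ZMod p, x i = el h p U z} * (p - 1) := by
          rw [Finset.sum_const, Finset.card_univ, smul_eq_mul]
      _ ≤ h * (p - 1) := Nat.mul_le_mul_right _ hcard
  · refine ⟨∑ i : {i // ¬ ∃ z : ZMod p, x i = el h p U z}, x i.1, ?_, ?_, ?_⟩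
    · calc ∑ i : {i // ¬ ∃ z : ZMod p, x i = el h p U z}, x i.1
          ≤ ∑ _i : {i // ¬ ∃ z : ZMod p, x i = el h p U z}, m := by
            apply Finset.sum_le_sum
            intro i _
            rcases hx i.1 with h4 | h4
            · exact h4
            · exact absurd h4 i.2
        _ = Fintype.card {i // ¬ ∃ z : ZMod p, x i = el h p U z} * m := by
            rw [Finset.sum_const, Finset.card_univ, smul_eq_mul]
        _ ≤ h * m := by
            apply Nat.mul_le_mul_right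
            have := Fintype.card_subtype_le (fun i : Fin h => ¬ ∃ z : ZMod p, x i = el h p U z)
            rwa [Fintype.card_fin] at this
    · intro hc
      have h1 := Fintype.card_subtype_compl (fun i : Fin h => ∃ z : ZMod p, x i = el h p U z)
      rw [hc, Fintype.card_fin, Nat.sub_self, Fintype.card_eq_zero_iff] at h1
      rw [Finset.univ_eq_empty, Finset.sum_empty]
    · have h2 : ∑ i, x i = ∑ i : {i // ∃ z : ZMod p, x i = el h p U z}, x i.1 +
          ∑ i : {i // ¬ ∃ z : ZMod p, x i = el h p U z}, x i.1 :=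
        (Fintype.sum_subtype_add_sum_subtype (fun i : Fin h => ∃ z : ZMod p, x i = el h p U z)
          x).symm
      rw [h2]
      congr 1
      rw [Finset.sum_congr rfl fun i _ => hf i]
      unfold el
      rw [← Finset.mul_sum, Finset.sum_add_distrib, ← Finset.sum_mul, Finset.sum_add_distrib,
        ← Finset.mul_sum, Finset.sum_const, Finset.card_univ, smul_eq_mul, mul_one]

open Classical in
/-- the separation inside a class -/
lemma sep_class [Fact p.Prime] {m : ℕ} (hh : 2 ≤ h) (hp : h < p)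
    (hm : 4 * h * m ≤ U * (4 * h * p)) (x y : Fin h → ℕ)
    (hx : ∀ i, x i ≤ m ∨ ∃ z : ZMod p, x i = el h p U z)
    (hy : ∀ i, y i ≤ m ∨ ∃ z : ZMod p, y i = el h p U z)
    (hex : (∃ i, ∃ z : ZMod p, x i = el h p U z) ∨ ∃ i, ∃ z : ZMod p, y i = el h p U z)
    (hne : univ.sup x ≠ univ.sup y) :
    (U : ℤ) ≤ |∑ i, (x i : ℤ) - ∑ i, (y i : ℤ)| := by
  have hp0 : 0 < p := by omega
  -- the functions
  have hfx : ∀ i : {i // ∃ z : ZMod p, x i = el h p U z}, ∃ z, x i.1 = el h p U z := fun i => i.2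
  have hfy : ∀ i : {i // ∃ z : ZMod p, y i = el h p U z}, ∃ z, y i.1 = el h p U z := fun i => i.2
  choose f hf using hfx
  choose g hg using hfy
  obtain ⟨cx, dx, Rx, rx1, rx2, sx⟩ := decomp x hx f hf
  obtain ⟨cy, dy, Ry, ry1, ry2, sy⟩ := decomp y hy g hg
  set σx := Fintype.card {i // ∃ z : ZMod p, x i = el h p U z} with hσx
  set σy := Fintype.card {i // ∃ z : ZMod p, y i = el h p U z} with hσy
  set Dx := ∑ i, ((f i) ^ h).val with hDx
  set Dy := ∑ i, ((g i) ^ h).val with hDy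
  set Tx := ∑ i, top h p (f i) with hTx
  set Ty := ∑ i, top h p (g i) with hTy
  have hsum : ∑ i, (x i : ℤ) - ∑ i, (y i : ℤ) =
      U * ((((4 * h * Tx + σx : ℕ) : ℤ) - ((4 * h * Ty + σy : ℕ) : ℤ)) * (4 * h * p) +
        ((Dx : ℤ) - Dy)) + ((Rx : ℤ) - Ry) := by
    have e1 : ∑ i, (x i : ℤ) = ((∑ i, x i : ℕ) : ℤ) := by push_cast; rfl
    have e2 : ∑ i, (y i : ℤ) = ((∑ i, y i : ℕ) : ℤ) := by push_cast; rfl
    rw [e1, e2, sx, sy]
    push_cast
    ring
  have hUp : (0 : ℤ) ≤ U := by positivity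
  have hB : (8 : ℤ) ≤ 4 * h * p := by
    have : 8 ≤ 4 * h * p := by nlinarith
    exact_mod_cast this
  have hdx : (Dx : ℤ) ≤ h * p := by
    have : Dx ≤ h * p := dx.trans (Nat.mul_le_mul_left _ (by omega))
    exact_mod_cast this
  have hdy : (Dy : ℤ) ≤ h * p := by
    have : Dy ≤ h * p := dy.trans (Nat.mul_le_mul_left _ (by omega))
    exact_mod_cast this
  have hrx : (Rx : ℤ) ≤ h * m := by exact_mod_cast rx1
  have hry : (Ry : ℤ) ≤ h * m := by exact_mod_cast ry1
  have hm' : (4 : ℤ) * h * m ≤ U * (4 * h * p) := by exact_mod_cast hm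
  have hDx0 : (0 : ℤ) ≤ Dx := by positivity
  have hDy0 : (0 : ℤ) ≤ Dy := by positivity
  have hRx0 : (0 : ℤ) ≤ Rx := by positivity
  have hRy0 : (0 : ℤ) ≤ Ry := by positivity
  have hUB : (U : ℤ) * 8 ≤ U * (4 * h * p) := mul_le_mul_of_nonneg_left hB hUp
  have hW : (U : ℤ) * (4 * h * p) = 4 * (U * (h * p)) := by ring
  have hm2 : (4 : ℤ) * h * m = 4 * (h * m) := by ring
  have hB0 : (0 : ℤ) ≤ 4 * h * p := by linarith
  have hhp : (4 : ℤ) * h * p = 4 * (h * p) := by ring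
  rcases lt_trichotomy (4 * h * Tx + σx) (4 * h * Ty + σy) with hlt | heq | hgt
  · have h1 : (((4 * h * Tx + σx : ℕ) : ℤ) - ((4 * h * Ty + σy : ℕ) : ℤ)) ≤ -1 := by
      have : ((4 * h * Tx + σx : ℕ) : ℤ) < ((4 * h * Ty + σy : ℕ) : ℤ) := by exact_mod_cast hlt
      omega
    rw [hsum]
    set V := (((4 * h * Tx + σx : ℕ) : ℤ) - ((4 * h * Ty + σy : ℕ) : ℤ)) with hV
    have h20 : V * (4 * h * p) ≤ (-1) * (4 * h * p) := mul_le_mul_of_nonneg_right h1 hB0
    have h2 : V * (4 * h * p) + ((Dx : ℤ) - Dy) ≤ -(3 * (h * p)) := by linarith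
    have h3 : U * (V * (4 * h * p) + ((Dx : ℤ) - Dy)) ≤ U * (-(3 * (h * p))) :=
      mul_le_mul_of_nonneg_left h2 hUp
    have h30 : (U : ℤ) * (-(3 * (h * p))) = -(3 * (U * (h * p))) := by ring
    have h4 : U * (V * (4 * h * p) + ((Dx : ℤ) - Dy)) + ((Rx : ℤ) - Ry) ≤ -U := by linarith
    rw [le_abs]
    right
    linarith
  · -- equal leading parts
    have hmod : σx = σy ∧ Tx = Ty := by
      have h1 := congrArg (· % (4 * h)) heq
      simp only [Nat.mul_add_mod] at h1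
      rw [Nat.mod_eq_of_lt (by omega), Nat.mod_eq_of_lt (by omega)] at h1
      refine ⟨h1, ?_⟩
      rw [h1] at heq
      exact Nat.eq_of_mul_eq_mul_left (by omega) (Nat.add_right_cancel heq)
    obtain ⟨hσ, hT⟩ := hmod
    have hps := top_sum_eq hh hp0 f g cx cy hT
    have hcontra : univ.val.map f = univ.val.map g → False := by
      intro heqm
      have hne1 : Nonempty {i // ∃ z : ZMod p, x i = el h p U z} := by
        rw [← Fintype.card_pos_iff]
        rcases hex with ⟨i, hi⟩ | ⟨i, hi⟩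
        · exact Fintype.card_pos_iff.2 ⟨⟨i, hi⟩⟩
        · have : 0 < Fintype.card {i // ∃ z : ZMod p, y i = el h p U z} :=
            Fintype.card_pos_iff.2 ⟨⟨i, hi⟩⟩
          omega
      have hne2 : Nonempty {i // ∃ z : ZMod p, y i = el h p U z} := by
        rw [← Fintype.card_pos_iff]
        have := Fintype.card_pos_iff.2 hne1
        omega
      exact hne (le_antisymm
        (sup_le_of_multiset hm (by omega) hx f hf g hg hne2 heqm)
        (sup_le_of_multiset hm (by omega) hy g hg f hf hne1 heqm.symm))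
    rcases Nat.lt_or_ge σx h with hlt | hge
    · exact absurd (multiset_eq f g σx (by omega) rfl hσ.symm fun e he1 he2 =>
        hps e he1 (by omega)) hcontra
    · have hx' : σx = h := le_antisymm cx hge
      have hy' : σy = h := by omega
      have hRx : Rx = 0 := rx2 hx'
      have hRy : Ry = 0 := ry2 hy'
      have hDne : Dx ≠ Dy := by
        intro hD
        apply hcontra
        refine multiset_eq f g h hp hx' hy' fun e he1 he2 => ?_
        rcases Nat.lt_or_ge e h with h1 | h1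
        · exact hps e he1 (by omega)
        · have h2 : e = h := le_antisymm he2 h1
          subst h2
          have h5 := congrArg (Nat.cast : ℕ → ZMod p) hD
          rw [hDx, hDy] at h5
          push_cast at h5
          simpa only [ZMod.natCast_zmod_val] using h5
      rw [hsum, heq, hRx, hRy, sub_self, zero_mul, zero_add]
      simp only [Nat.cast_zero, sub_zero, add_zero]
      rw [abs_mul, abs_of_nonneg hUp]
      have h6 : (1 : ℤ) ≤ |(Dx : ℤ) - Dy| := by
        have h7 : (Dx : ℤ) - Dy ≠ 0 := by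
          intro h8
          apply hDne
          have : (Dx : ℤ) = Dy := by linarith
          exact_mod_cast this
        exact Int.one_le_abs h7
      calc (U : ℤ) = U * 1 := (mul_one _).symm
        _ ≤ U * |(Dx : ℤ) - Dy| := mul_le_mul_of_nonneg_left h6 hUp
  · have h1 : 1 ≤ (((4 * h * Tx + σx : ℕ) : ℤ) - ((4 * h * Ty + σy : ℕ) : ℤ)) := by
      have : ((4 * h * Ty + σy : ℕ) : ℤ) < ((4 * h * Tx + σx : ℕ) : ℤ) := by exact_mod_cast hgt
      omega
    rw [hsum]
    set V := (((4 * h * Tx + σx : ℕ) : ℤ) - ((4 * h * Ty + σy : ℕ) : ℤ)) with hV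
    have h20 : 1 * (4 * h * p) ≤ V * (4 * h * p) := mul_le_mul_of_nonneg_right h1 hB0
    have h2 : (3 * (h * p) : ℤ) ≤ V * (4 * h * p) + ((Dx : ℤ) - Dy) := by linarith
    have h3 : U * (3 * (h * p) : ℤ) ≤ U * (V * (4 * h * p) + ((Dx : ℤ) - Dy)) :=
      mul_le_mul_of_nonneg_left h2 hUp
    have h30 : (U : ℤ) * (3 * (h * p)) = 3 * (U * (h * p)) := by ring
    have h4 : (U : ℤ) ≤ U * (V * (4 * h * p) + ((Dx : ℤ) - Dy)) + ((Rx : ℤ) - Ry) := by linarith
    exact h4.trans (le_abs_self _)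


/-- size of the upper digits -/
lemma top_add_one_le [Fact p.Prime] (hh : 2 ≤ h) (z : ZMod p) :
    top h p z + 1 ≤ (z.val + 1) * (4 * h * p) ^ (h - 2) := by
  have hp0 : 0 < p := (Fact.out : p.Prime).pos
  have hB : p ≤ 4 * h * p := Nat.le_mul_of_pos_left p (by omega)
  have h1 : ∀ n, ∑ j ∈ range n, (z ^ (h - 1 - j)).val * (4 * h * p) ^ j + 1 ≤
      (4 * h * p) ^ n := by
    intro n
    induction n with
    | zero => simp
    | succ n ih =>
      rw [sum_range_succ]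
      have h2 := ZMod.val_lt (z ^ (h - 1 - n))
      have h3 : (z ^ (h - 1 - n)).val + 1 ≤ 4 * h * p := by omega
      have h4 := Nat.mul_le_mul_right ((4 * h * p) ^ n) h3
      rw [pow_succ']
      have h5 : ((z ^ (h - 1 - n)).val + 1) * (4 * h * p) ^ n =
        (z ^ (h - 1 - n)).val * (4 * h * p) ^ n + (4 * h * p) ^ n := by ring
      omega
  obtain ⟨n, rfl⟩ : ∃ n, h = n + 2 := ⟨h - 2, by omega⟩
  unfold top
  have e1 : n + 2 - 1 = n + 1 := by omega
  rw [e1, sum_range_succ]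
  have h2 := h1 n
  rw [e1] at h2
  have e2 : n + 1 - n = 1 := by omega
  have e3 : n + 2 - 2 = n := by omega
  rw [e2, e3, pow_one]
  have h5 : (z.val + 1) * (4 * (n + 2) * p) ^ n = z.val * (4 * (n + 2) * p) ^ n +
    (4 * (n + 2) * p) ^ n := by ring
  omega

/-- size of the elements of a class -/
lemma el_le [Fact p.Prime] (hh : 2 ≤ h) (z : ZMod p) :
    el h p U z ≤ (z.val + 1) * (4 * h * U * (4 * h * p) ^ (h - 1)) := by
  have hp0 : 0 < p := (Fact.out : p.Prime).pos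
  have hB : p ≤ 4 * h * p := Nat.le_mul_of_pos_left p (by omega)
  have h1 := top_add_one_le hh z
  have h2 := ZMod.val_lt (z ^ h)
  obtain ⟨n, rfl⟩ : ∃ n, h = n + 2 := ⟨h - 2, by omega⟩
  have e1 : n + 2 - 1 = n + 1 := by omega
  have e3 : n + 2 - 2 = n := by omega
  rw [e3] at h1
  rw [e1]
  unfold el
  calc U * ((4 * (n + 2) * top (n + 2) p z + 1) * (4 * (n + 2) * p) + (z ^ (n + 2)).val)
      ≤ U * ((4 * (n + 2) * top (n + 2) p z + 1) * (4 * (n + 2) * p) + 1 * (4 * (n + 2) * p)) := by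
        apply Nat.mul_le_mul_left
        omega
    _ = U * ((4 * (n + 2) * top (n + 2) p z + 2) * (4 * (n + 2) * p)) := by ring
    _ ≤ U * ((4 * (n + 2) * (top (n + 2) p z + 1)) * (4 * (n + 2) * p)) := by
        apply Nat.mul_le_mul_left
        apply Nat.mul_le_mul_right
        nlinarith
    _ ≤ U * ((4 * (n + 2) * ((z.val + 1) * (4 * (n + 2) * p) ^ n)) * (4 * (n + 2) * p)) := by
        apply Nat.mul_le_mul_left
        apply Nat.mul_le_mul_right
        apply Nat.mul_le_mul_left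
        exact h1
    _ = (z.val + 1) * (4 * (n + 2) * U * (4 * (n + 2) * p) ^ (n + 1)) := by ring

lemma el_le' [Fact p.Prime] (hh : 2 ≤ h) (z : ZMod p) : el h p U z ≤ U * (4 * h * p) ^ h := by
  refine (el_le hh z).trans ?_
  have h1 := ZMod.val_lt z
  obtain ⟨n, rfl⟩ : ∃ n, h = n + 2 := ⟨h - 2, by omega⟩
  have e1 : n + 2 - 1 = n + 1 := by omega
  rw [e1]
  calc (z.val + 1) * (4 * (n + 2) * U * (4 * (n + 2) * p) ^ (n + 1))
      ≤ p * (4 * (n + 2) * U * (4 * (n + 2) * p) ^ (n + 1)) := Nat.mul_le_mul_right _ h1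
    _ = U * (4 * (n + 2) * p) ^ (n + 2) := by ring

lemma el_inj [Fact p.Prime] (hh : 2 ≤ h) (hU : 1 ≤ U) {z z' : ZMod p}
    (heq : el h p U z = el h p U z') : z = z' := by
  have hp0 : 0 < p := (Fact.out : p.Prime).pos
  have hB : p ≤ 4 * h * p := Nat.le_mul_of_pos_left p (by omega)
  unfold el at heq
  have h1 := Nat.eq_of_mul_eq_mul_left (by omega) heq
  have h2 := ZMod.val_lt (z ^ h)
  have h3 := ZMod.val_lt (z' ^ h)
  have h4 := congrArg (· / (4 * h * p)) h1
  rw [Nat.add_comm, Nat.add_mul_div_right _ _ (by omega), Nat.add_comm _ ((z' ^ h).val),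
    Nat.add_mul_div_right _ _ (by omega), Nat.div_eq_of_lt (by omega),
    Nat.div_eq_of_lt (by omega)] at h4
  have h5 : top h p z = top h p z' := by
    have : 4 * h * top h p z = 4 * h * top h p z' := by omega
    exact Nat.eq_of_mul_eq_mul_left (by omega) this
  have h6 := top_sum_eq (h := h) hh hp0 (fun _ : Unit => z) (fun _ : Unit => z')
    (by rw [Fintype.card_unit]; omega) (by rw [Fintype.card_unit]; omega) (by simpa using h5) 1
    le_rfl (by omega)
  simpa using h6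

end cls

/-! ## Definitions -/

/-! ## The union of the classes -/

section union

variable (h : ℕ) (P U : ℕ → ℕ)

/-- the set -/
def SS : Set ℕ := {s | ∃ k, ∃ z : ZMod (P k), s = el h (P k) (U k) z}

/-- the conditions on the parameters -/
structure Par (α : ℝ) : Prop where
  hh : 2 ≤ h
  prime : ∀ k, (P k).Prime
  lt : ∀ k, h < P k
  one : ∀ k, 1 ≤ U k
  str : ∀ k, ((U k * (4 * h * P k) ^ h : ℕ) : ℝ) ^ α ≤ U k
  gap : ∀ k, 4 * h * (U k * (4 * h * P k) ^ h) ≤ U (k + 1) * (4 * h * P (k + 1))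

variable {h P U} {α : ℝ}

lemma Par.mono (H : Par h P U α) : Monotone fun k => U k * (4 * h * P k) ^ h := by
  apply monotone_nat_of_le_succ
  intro k
  have h1 := H.gap k
  have h2 := H.hh
  have h3 := (H.prime (k + 1)).pos
  have h4 : U (k + 1) * (4 * h * P (k + 1)) ≤ U (k + 1) * (4 * h * P (k + 1)) ^ h := by
    apply Nat.mul_le_mul_left
    exact Nat.le_self_pow (by omega) _
  have h5 : U k * (4 * h * P k) ^ h ≤ 4 * h * (U k * (4 * h * P k) ^ h) :=
    Nat.le_mul_of_pos_left _ (by omega)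
  exact h5.trans (h1.trans h4)

lemma Par.strong (H : Par h P U α) (hα : 0 ≤ α) : IsStrongB α h (SS h P U) := by
  intro x y hx hy hne i
  choose kx zx hzx using hx
  choose ky zy hzy using hy
  set K := max (univ.sup kx) (univ.sup ky) with hK
  have hkx : ∀ i, kx i ≤ K := fun i => (Finset.le_sup (mem_univ i)).trans (le_max_left _ _)
  have hky : ∀ i, ky i ≤ K := fun i => (Finset.le_sup (mem_univ i)).trans (le_max_right _ _)
  have hh := H.hh
  have : ∀ k, Fact (P k).Prime := fun k => ⟨H.prime k⟩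
  have hxle : ∀ i, x i ≤ U K * (4 * h * P K) ^ h := fun i => by
    rw [hzx i]
    exact (el_le' hh _).trans (H.mono (hkx i))
  have hyle : ∀ i, y i ≤ U K * (4 * h * P K) ^ h := fun i => by
    rw [hzy i]
    exact (el_le' hh _).trans (H.mono (hky i))
  set m : ℕ := if K = 0 then 0 else U (K - 1) * (4 * h * P (K - 1)) ^ h with hm
  have hm1 : 4 * h * m ≤ U K * (4 * h * P K) := by
    rw [hm]
    split_ifs with h0
    · simp
    · obtain ⟨k, hk⟩ : ∃ k, K = k + 1 := ⟨K - 1, by omega⟩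
      rw [hk]
      simpa using H.gap k
  have hm2 : ∀ k < K, U k * (4 * h * P k) ^ h ≤ m := by
    intro k hk
    rw [hm, if_neg (by omega)]
    exact H.mono (by omega : k ≤ K - 1)
  have hcase : ∀ (v : ℕ) (k : ℕ) (z : ZMod (P k)), k ≤ K → v = el h (P k) (U k) z →
      v ≤ m ∨ ∃ z : ZMod (P K), v = el h (P K) (U K) z := by
    intro v k z hk hv
    rcases hk.lt_or_eq with h1 | h1
    · left
      rw [hv]
      exact (el_le' hh _).trans (hm2 k h1)
    · right
      subst h1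
      exact ⟨z, hv⟩
  have hex : (∃ i, ∃ z : ZMod (P K), x i = el h (P K) (U K) z) ∨
      ∃ i, ∃ z : ZMod (P K), y i = el h (P K) (U K) z := by
    have : Nonempty (Fin h) := ⟨⟨0, by omega⟩⟩
    have hu : (univ : Finset (Fin h)).Nonempty := univ_nonempty
    rcases le_total (univ.sup kx) (univ.sup ky) with h1 | h1
    · right
      obtain ⟨j, -, hj⟩ := Finset.exists_mem_eq_sup univ hu ky
      have h2 : ky j = K := by rw [hK, max_eq_right h1, hj]
      refine ⟨j, ?_⟩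
      rw [← h2]
      exact ⟨zy j, hzy j⟩
    · left
      obtain ⟨j, -, hj⟩ := Finset.exists_mem_eq_sup univ hu kx
      have h2 : kx j = K := by rw [hK, max_eq_left h1, hj]
      refine ⟨j, ?_⟩
      rw [← h2]
      exact ⟨zx j, hzx j⟩
  have key := sep_class hh (H.lt K) hm1 x y (fun i => hcase _ _ _ (hkx i) (hzx i))
    (fun i => hcase _ _ _ (hky i) (hzy i)) hex hne
  have key' : (U K : ℝ) ≤ |∑ j, (x j : ℝ) - ∑ j, (y j : ℝ)| := by
    have := (Int.cast_le (R := ℝ)).2 key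
    push_cast at this
    exact this
  refine max_le ?_ ?_
  · calc ((x i : ℕ) : ℝ) ^ α ≤ ((U K * (4 * h * P K) ^ h : ℕ) : ℝ) ^ α :=
          Real.rpow_le_rpow (by positivity) (by exact_mod_cast hxle i) hα
      _ ≤ U K := H.str K
      _ ≤ _ := key'
  · calc ((y i : ℕ) : ℝ) ^ α ≤ ((U K * (4 * h * P K) ^ h : ℕ) : ℝ) ^ α :=
          Real.rpow_le_rpow (by positivity) (by exact_mod_cast hyle i) hα
      _ ≤ U K := H.str K
      _ ≤ _ := key'

lemma Par.pos (H : Par h P U α) : ∀ s ∈ SS h P U, 1 ≤ s := by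
  rintro s ⟨k, z, rfl⟩
  have h1 := le_el (h := h) (U := U k) z
  have h2 := H.one k
  have h3 := (H.prime k).pos
  have h4 := H.hh
  have h5 : 1 ≤ U k * (4 * h * P k) := by
    apply Nat.succ_le_of_lt
    positivity
  omega

lemma Par.count_ge (H : Par h P U α) (k n : ℕ) :
    min (P k) (n / (4 * h * U k * (4 * h * P k) ^ (h - 1))) ≤ count (SS h P U) n := by
  have : Fact (P k).Prime := ⟨H.prime k⟩
  have hh := H.hh
  set D := 4 * h * U k * (4 * h * P k) ^ (h - 1) with hD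
  have hsub : (fun t : ℕ => el h (P k) (U k) (t : ZMod (P k))) ''
      (range (min (P k) (n / D)) : Set ℕ) ⊆ SS h P U ∩ Set.Icc 1 n := by
    rintro s ⟨t, ht, rfl⟩
    rw [mem_coe, mem_range, lt_min_iff] at ht
    have h1 : (fun t : ℕ => el h (P k) (U k) (t : ZMod (P k))) t ∈ SS h P U := ⟨k, _, rfl⟩
    refine ⟨h1, H.pos _ h1, ?_⟩
    refine (el_le hh _).trans ?_
    rw [ZMod.val_cast_of_lt ht.1]
    exact (Nat.mul_le_mul_right _ ht.2).trans (Nat.div_mul_le_self _ _)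
  have hfin : (SS h P U ∩ Set.Icc 1 n).Finite := (Set.finite_Icc 1 n).inter_of_right _
  have h1 := Set.ncard_le_ncard hsub hfin
  rw [Set.InjOn.ncard_image, Set.ncard_coe_finset, card_range] at h1
  · exact h1
  · intro s hs t ht hst
    rw [mem_coe, mem_range, lt_min_iff] at hs ht
    have h2 := el_inj hh (H.one k) hst
    have h3 := congrArg ZMod.val h2
    rwa [ZMod.val_cast_of_lt hs.1, ZMod.val_cast_of_lt ht.1] at h3

end union

/-! ## The parameters -/

section par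

variable {h : ℕ} {α : ℝ}

/-- the number `U` belonging to `p` -/
noncomputable def UU (α : ℝ) (h p : ℕ) : ℕ := ⌈((4 * h * p : ℕ) : ℝ) ^ (h * α / (1 - α))⌉₊

/-- the next prime -/
lemma exists_next (ρ : ℝ) (p : ℕ) (hh : 2 ≤ h) (hp : 0 < p) (hρ : 0 ≤ ρ) : ∃ q : ℕ, q.Prime ∧
    4 * ((4 * h * p : ℕ) : ℝ) ^ ρ < q ∧ (q : ℝ) ≤ 10 * ((4 * h * p : ℕ) : ℝ) ^ ρ := by
  have h1 : (1 : ℝ) ≤ ((4 * h * p : ℕ) : ℝ) := by
    have : 1 ≤ 4 * h * p := Nat.succ_le_of_lt (by positivity)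
    exact_mod_cast this
  have h2 : (1 : ℝ) ≤ ((4 * h * p : ℕ) : ℝ) ^ ρ := Real.one_le_rpow h1 hρ
  set X : ℝ := ((4 * h * p : ℕ) : ℝ) ^ ρ with hX
  have h3 : ⌈4 * X⌉₊ ≠ 0 := by
    have : 0 < ⌈4 * X⌉₊ := Nat.ceil_pos.2 (by linarith)
    omega
  obtain ⟨q, hq, hq1, hq2⟩ := Nat.exists_prime_lt_and_le_two_mul _ h3
  refine ⟨q, hq, ?_, ?_⟩
  · have h4 : 4 * X ≤ ⌈4 * X⌉₊ := Nat.le_ceil _
    have h5 : (⌈4 * X⌉₊ : ℝ) < q := by exact_mod_cast hq1
    linarith
  · have h4 : (⌈4 * X⌉₊ : ℝ) < 4 * X + 1 := Nat.ceil_lt_add_one (by linarith)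
    have h5 : (q : ℝ) ≤ 2 * (⌈4 * X⌉₊ : ℝ) := by exact_mod_cast hq2
    linarith

/-- bounds for `UU` -/
lemma UU_bounds (hh : 2 ≤ h) (hα0 : 0 ≤ α) (hα1 : α < 1) {p : ℕ} (hp : 0 < p) :
    ((4 * h * p : ℕ) : ℝ) ^ (h * α / (1 - α)) ≤ UU α h p ∧
    (UU α h p : ℝ) ≤ 2 * ((4 * h * p : ℕ) : ℝ) ^ (h * α / (1 - α)) ∧ 1 ≤ UU α h p := by
  have h1 : (1 : ℝ) ≤ ((4 * h * p : ℕ) : ℝ) := by
    have : 1 ≤ 4 * h * p := Nat.succ_le_of_lt (by positivity)
    exact_mod_cast this
  have h0 : 0 ≤ h * α / (1 - α) := div_nonneg (by positivity) (by linarith)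
  have h2 : (1 : ℝ) ≤ ((4 * h * p : ℕ) : ℝ) ^ (h * α / (1 - α)) := Real.one_le_rpow h1 h0
  have h3 := Nat.le_ceil (((4 * h * p : ℕ) : ℝ) ^ (h * α / (1 - α)))
  have h4 := Nat.ceil_lt_add_one (a := ((4 * h * p : ℕ) : ℝ) ^ (h * α / (1 - α))) (by linarith)
  refine ⟨h3, ?_, ?_⟩
  · unfold UU
    linarith
  · unfold UU
    exact Nat.one_le_ceil_iff.2 (by linarith)

/-- the exponents -/
lemma UU_strong (hh : 2 ≤ h) (hα0 : 0 ≤ α) (hα1 : α < 1) {p : ℕ} (hp : 0 < p) :
    ((UU α h p * (4 * h * p) ^ h : ℕ) : ℝ) ^ α ≤ UU α h p := by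
  obtain ⟨h1, h2, h3⟩ := UU_bounds hh hα0 hα1 hp
  set B : ℝ := ((4 * h * p : ℕ) : ℝ) with hB
  have hB1 : (1 : ℝ) ≤ B := by
    have : 1 ≤ 4 * h * p := Nat.succ_le_of_lt (by positivity)
    rw [hB]
    exact_mod_cast this
  have hB0 : 0 < B := by linarith
  set u : ℝ := (UU α h p : ℝ) with hu
  have hu0 : 0 < u := by
    have : (1 : ℝ) ≤ u := by rw [hu]; exact_mod_cast h3
    linarith
  have e1 : ((UU α h p * (4 * h * p) ^ h : ℕ) : ℝ) = u * B ^ h := by
    rw [Nat.cast_mul, Nat.cast_pow]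
  rw [e1, Real.mul_rpow hu0.le (by positivity)]
  have h5 : (B ^ h) ^ α = (B ^ (h * α / (1 - α))) ^ (1 - α) := by
    rw [← Real.rpow_natCast, ← Real.rpow_mul hB0.le, ← Real.rpow_mul hB0.le]
    congr 1
    rw [div_mul_cancel₀ _ (by linarith)]
  rw [h5]
  calc u ^ α * (B ^ (h * α / (1 - α))) ^ (1 - α) ≤ u ^ α * u ^ (1 - α) := by
        apply mul_le_mul_of_nonneg_left _ (by positivity)
        exact Real.rpow_le_rpow (by positivity) h1 (by linarith)
    _ = u := by
        rw [← Real.rpow_add hu0]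
        simp

/-- size of the elements of a class -/
lemma UU_size (hh : 2 ≤ h) (hα0 : 0 ≤ α) (hα1 : α < 1) {p : ℕ} (hp : 0 < p) :
    ((UU α h p * (4 * h * p) ^ h : ℕ) : ℝ) ≤ 2 * ((4 * h * p : ℕ) : ℝ) ^ (h / (1 - α)) := by
  obtain ⟨h1, h2, h3⟩ := UU_bounds hh hα0 hα1 hp
  set B : ℝ := ((4 * h * p : ℕ) : ℝ) with hB
  have hB1 : (1 : ℝ) ≤ B := by
    have : 1 ≤ 4 * h * p := Nat.succ_le_of_lt (by positivity)
    rw [hB]
    exact_mod_cast this
  have hB0 : 0 < B := by linarith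
  have e1 : ((UU α h p * (4 * h * p) ^ h : ℕ) : ℝ) = (UU α h p : ℝ) * B ^ h := by
    rw [Nat.cast_mul, Nat.cast_pow]
  have e2 : B ^ ((h : ℝ) / (1 - α)) = B ^ (h * α / (1 - α)) * B ^ h := by
    rw [← Real.rpow_natCast, ← Real.rpow_add hB0]
    congr 1
    have : 1 - α ≠ 0 := by linarith
    field_simp
    ring
  rw [e1, e2, ← mul_assoc]
  exact mul_le_mul_of_nonneg_right h2 (by positivity)

/-- the gap condition -/
lemma UU_gap (hh : 2 ≤ h) (hα0 : 0 ≤ α) (hα1 : α < 1) {p q : ℕ} (hp : 0 < p) (hq0 : 0 < q)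
    (hq : 4 * ((4 * h * p : ℕ) : ℝ) ^ ((h : ℝ) / (1 + (h - 1) * α)) < q) :
    4 * h * (UU α h p * (4 * h * p) ^ h) ≤ UU α h q * (4 * h * q) := by
  have h1 := UU_size hh hα0 hα1 hp
  obtain ⟨h2, -, -⟩ := UU_bounds hh hα0 hα1 hq0
  set B : ℝ := ((4 * h * p : ℕ) : ℝ) with hB
  set C : ℝ := ((4 * h * q : ℕ) : ℝ) with hC
  have hh' : (2 : ℝ) ≤ h := by exact_mod_cast hh
  have hB1 : (1 : ℝ) ≤ B := by
    have : 1 ≤ 4 * h * p := Nat.succ_le_of_lt (by positivity)
    rw [hB]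
    exact_mod_cast this
  have hB0 : 0 < B := by linarith
  have hC1 : (1 : ℝ) ≤ C := by
    have : 1 ≤ 4 * h * q := Nat.succ_le_of_lt (by positivity)
    rw [hC]
    exact_mod_cast this
  have hC0 : 0 < C := by linarith
  have h1α : 0 < 1 - α := by linarith
  have hden : 0 < 1 + ((h : ℝ) - 1) * α := by
    have : 0 ≤ ((h : ℝ) - 1) * α := mul_nonneg (by linarith) hα0
    linarith
  set ρ : ℝ := (h : ℝ) / (1 + (h - 1) * α) with hρ
  set e : ℝ := (1 + (h - 1) * α) / (1 - α) with he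
  have he1 : 1 ≤ e := by
    rw [he, one_le_div h1α]
    nlinarith
  have hCB : 8 * h * B ^ ρ ≤ C := by
    have : C = 4 * h * (q : ℝ) := by rw [hC]; push_cast; ring
    rw [this]
    nlinarith [Real.rpow_nonneg hB0.le ρ]
  have h8 : (1 : ℝ) ≤ 8 * h := by linarith
  have h3 : 8 * h * B ^ ((h : ℝ) / (1 - α)) ≤ C ^ e := by
    calc 8 * h * B ^ ((h : ℝ) / (1 - α)) ≤ (8 * h) ^ e * B ^ ((h : ℝ) / (1 - α)) := by
          apply mul_le_mul_of_nonneg_right _ (by positivity)
          calc (8 : ℝ) * h = (8 * h) ^ (1 : ℝ) := (Real.rpow_one _).symm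
            _ ≤ (8 * h) ^ e := Real.rpow_le_rpow_of_exponent_le h8 he1
      _ = (8 * h * B ^ ρ) ^ e := by
          rw [Real.mul_rpow (x := 8 * (h : ℝ)) (y := B ^ ρ) (by positivity) (by positivity),
            ← Real.rpow_mul hB0.le]
          congr 2
          rw [hρ, he, div_mul_div_cancel₀ hden.ne']
      _ ≤ C ^ e := Real.rpow_le_rpow (by positivity) hCB (by linarith)
  have h4 : C ^ e = C ^ (h * α / (1 - α)) * C := by
    nth_rewrite 3 [← Real.rpow_one C]
    rw [← Real.rpow_add hC0]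
    congr 1
    rw [he]
    field_simp
    ring
  have h5 : ((4 * h * (UU α h p * (4 * h * p) ^ h) : ℕ) : ℝ) ≤
      ((UU α h q * (4 * h * q) : ℕ) : ℝ) := by
    rw [Nat.cast_mul, Nat.cast_mul (UU α h q)]
    calc ((4 * h : ℕ) : ℝ) * ((UU α h p * (4 * h * p) ^ h : ℕ) : ℝ)
        ≤ ((4 * h : ℕ) : ℝ) * (2 * B ^ ((h : ℝ) / (1 - α))) :=
          mul_le_mul_of_nonneg_left h1 (by positivity)
      _ = 8 * h * B ^ ((h : ℝ) / (1 - α)) := by push_cast; ring
      _ ≤ C ^ e := h3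
      _ = C ^ (h * α / (1 - α)) * C := h4
      _ ≤ (UU α h q : ℝ) * C := mul_le_mul_of_nonneg_right h2 hC0.le
  exact_mod_cast h5

end par

/-! ## The exponent -/

/-- the exponent -/
noncomputable def EE (α : ℝ) (h : ℕ) : ℝ :=
  (1 - α) * (1 + (h - 1) * α) / (h ^ 2 - (h - 1) * (1 - α) ^ 2)

section expo

variable {h : ℕ} {α : ℝ}

lemma EE_den (hh : 2 ≤ h) (hα0 : 0 ≤ α) (hα1 : α < 1) :
    0 < (h : ℝ) ^ 2 - (h - 1) * (1 - α) ^ 2 := by
  have hh' : (2 : ℝ) ≤ h := by exact_mod_cast hh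
  have h1 : (1 - α) ^ 2 ≤ 1 := by nlinarith
  nlinarith

lemma EE_eq (hh : 2 ≤ h) (hα0 : 0 ≤ α) (hα1 : α < 1) :
    EE α h = 1 / (1 + (h : ℝ) / (1 + (h - 1) * α) * (h * α / (1 - α) + (h - 1))) := by
  have hd := EE_den hh hα0 hα1
  have hh' : (2 : ℝ) ≤ h := by exact_mod_cast hh
  have h1 : 0 < 1 - α := by linarith
  have h2 : 0 < 1 + ((h : ℝ) - 1) * α := by
    have : 0 ≤ ((h : ℝ) - 1) * α := mul_nonneg (by linarith) hα0
    linarith
  have e1 : 1 + (h : ℝ) / (1 + (h - 1) * α) * (h * α / (1 - α) + (h - 1)) =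
      (h ^ 2 - (h - 1) * (1 - α) ^ 2) / ((1 - α) * (1 + (h - 1) * α)) := by
    rw [div_add' _ _ _ h1.ne', div_mul_div_comm, eq_div_iff (by positivity),
      add_mul, div_mul_eq_mul_div, mul_comm (1 + ((h : ℝ) - 1) * α) (1 - α),
      mul_div_cancel_right₀ _ (by positivity)]
    ring
  rw [EE, e1, one_div_div]

lemma EE_lower (hh : 2 ≤ h) (hα0 : 0 ≤ α) (hα1 : α < 1) : α * ((1 - α) / h) ≤ EE α h := by
  have hd := EE_den hh hα0 hα1
  have hh' : (2 : ℝ) ≤ h := by exact_mod_cast hh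
  have h1 : 0 < 1 - α := by linarith
  rw [EE, ← mul_div_assoc, div_le_div_iff₀ (by linarith) hd]
  have h3 : α * (h ^ 2 - (h - 1) * (1 - α) ^ 2) ≤ (1 + (h - 1) * α) * h := by
    nlinarith [mul_nonneg hα0 (mul_nonneg (by linarith : (0 : ℝ) ≤ h - 1) (sq_nonneg (1 - α)))]
  nlinarith [mul_le_mul_of_nonneg_left h3 h1.le]

lemma EE_known (hh : 2 ≤ h) (hα0 : 1 / 2 ≤ α) (hα1 : α < 1) :
    √((h - 1 + α / 2) ^ 2 + 1 - α) - (h - 1 + α / 2) < EE α h := by
  have hd := EE_den hh (by linarith) hα1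
  have hh' : (2 : ℝ) ≤ h := by exact_mod_cast hh
  have h1 : 0 < 1 - α := by linarith
  set A : ℝ := h - 1 + α / 2 with hA
  have hA0 : 0 < A := by rw [hA]; linarith
  have h2 : √(A ^ 2 + 1 - α) < A + (1 - α) / (2 * A) := by
    rw [Real.sqrt_lt' (by positivity)]
    have e1 : (A + (1 - α) / (2 * A)) ^ 2 = A ^ 2 + (1 - α) + ((1 - α) / (2 * A)) ^ 2 := by
      field_simp
      ring
    rw [e1]
    have : 0 < ((1 - α) / (2 * A)) ^ 2 := by positivity
    linarith
  have h3 : (1 - α) / (2 * A) ≤ EE α h := by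
    rw [EE, div_le_div_iff₀ (by positivity) hd]
    have h4 : (h : ℝ) ^ 2 - (h - 1) * (1 - α) ^ 2 ≤ (1 + (h - 1) * α) * (2 * A) := by
      rw [hA]
      set m : ℝ := (h : ℝ) - 1 with hm
      have e2 : (h : ℝ) = m + 1 := by rw [hm]; ring
      rw [e2]
      have hm1 : 1 ≤ m := by rw [hm]; linarith
      have h5 : 0 ≤ (α - 1 / 2) * (2 * m ^ 2 - 2 * m + 1) := by
        apply mul_nonneg (by linarith)
        nlinarith
      have h6 : 0 ≤ m * (α ^ 2 - 1 / 4) := mul_nonneg (by linarith) (by nlinarith)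
      nlinarith
    nlinarith [mul_le_mul_of_nonneg_left h4 h1.le]
  linarith

lemma EE_pos (hh : 2 ≤ h) (hα0 : 0 ≤ α) (hα1 : α < 1) : 0 < EE α h := by
  have hd := EE_den hh hα0 hα1
  have hh' : (2 : ℝ) ≤ h := by exact_mod_cast hh
  have h1 : 0 < 1 - α := by linarith
  have h2 : 0 < 1 + ((h : ℝ) - 1) * α := by
    have : 0 ≤ ((h : ℝ) - 1) * α := mul_nonneg (by linarith) hα0
    linarith
  unfold EE
  positivity

end expo

/-! ## The main estimate -/

section main

variable {h : ℕ} {α : ℝ}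

/-- the interpolation -/
lemma interp {a b B n t ρ w E : ℝ} (ha : 0 < a) (hb : 0 < b) (hB : 0 < B) (hn : 0 < n)
    (hρ : 0 < ρ) (hw : 0 < w) (hE : E = 1 / (1 + ρ * w)) (h1 : a * B ^ (1 / ρ) ≤ t)
    (h2 : b * (n / B ^ w) ≤ t) : a ^ (1 - E) * b ^ E * n ^ E ≤ t := by
  have hρw : 0 < ρ * w := mul_pos hρ hw
  have hE0 : 0 < E := by rw [hE]; positivity
  have hE1 : E < 1 := by
    rw [hE, div_lt_one (by positivity)]
    linarith
  have ht : 0 < t := lt_of_lt_of_le (by positivity) h1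
  have h3 : (a * B ^ (1 / ρ)) ^ (1 - E) * (b * (n / B ^ w)) ^ E ≤ t ^ (1 - E) * t ^ E := by
    apply mul_le_mul
    · exact Real.rpow_le_rpow (by positivity) h1 (by linarith)
    · exact Real.rpow_le_rpow (by positivity) h2 hE0.le
    · positivity
    · positivity
  have h4 : t ^ (1 - E) * t ^ E = t := by
    rw [← Real.rpow_add ht]
    simp
  have h5 : (a * B ^ (1 / ρ)) ^ (1 - E) * (b * (n / B ^ w)) ^ E = a ^ (1 - E) * b ^ E * n ^ E := by
    rw [Real.mul_rpow ha.le (by positivity), Real.mul_rpow hb.le (by positivity),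
      Real.div_rpow hn.le (by positivity), ← Real.rpow_mul hB.le, ← Real.rpow_mul hB.le]
    have h6 : 1 / ρ * (1 - E) = w * E := by
      rw [hE]
      field_simp
      ring
    rw [h6]
    have h7 : B ^ (w * E) ≠ 0 := (Real.rpow_pos_of_pos hB _).ne'
    field_simp
  rw [← h5]
  linarith

/-- the primes -/
lemma exists_seq (hh : 2 ≤ h) {ρ : ℝ} (hρ1 : 1 ≤ ρ) : ∃ P : ℕ → ℕ,
    (∀ k, (P k).Prime ∧ h < P k) ∧ ∀ k, 4 * ((4 * h * P k : ℕ) : ℝ) ^ ρ < P (k + 1) ∧
      (P (k + 1) : ℝ) ≤ 10 * ((4 * h * P k : ℕ) : ℝ) ^ ρ := by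
  obtain ⟨p0, hp0, hp0'⟩ := Nat.exists_infinite_primes (h + 1)
  have hstep : ∀ p : ℕ, ∃ q : ℕ, 0 < p → (q.Prime ∧ 4 * ((4 * h * p : ℕ) : ℝ) ^ ρ < q ∧
      (q : ℝ) ≤ 10 * ((4 * h * p : ℕ) : ℝ) ^ ρ) := by
    intro p
    by_cases hp : 0 < p
    · obtain ⟨q, hq⟩ := exists_next (h := h) ρ p hh hp (by linarith)
      exact ⟨q, fun _ => hq⟩
    · exact ⟨0, fun h => absurd h hp⟩
  choose F hF using hstep
  obtain ⟨P, hP0, hPs⟩ : ∃ P : ℕ → ℕ, P 0 = p0 ∧ ∀ k, P (k + 1) = F (P k) :=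
    ⟨fun k => Nat.rec p0 (fun _ q => F q) k, rfl, fun _ => rfl⟩
  have hPp : ∀ k, (P k).Prime ∧ h < P k := by
    intro k
    induction k with
    | zero => rw [hP0]; exact ⟨hp0', by omega⟩
    | succ k ih =>
      have h2 := hF (P k) ih.1.pos
      rw [← hPs] at h2
      refine ⟨h2.1, ?_⟩
      have h4 : (1 : ℝ) ≤ ((4 * h * P k : ℕ) : ℝ) := by
        have : 1 ≤ 4 * h * P k := Nat.succ_le_of_lt (by have := ih.1.pos; positivity)
        exact_mod_cast this
      have h3 : ((4 * h * P k : ℕ) : ℝ) ≤ ((4 * h * P k : ℕ) : ℝ) ^ ρ := by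
        calc ((4 * h * P k : ℕ) : ℝ) = ((4 * h * P k : ℕ) : ℝ) ^ (1 : ℝ) := (Real.rpow_one _).symm
          _ ≤ _ := Real.rpow_le_rpow_of_exponent_le h4 hρ1
      have h5 : (P k : ℝ) ≤ ((4 * h * P k : ℕ) : ℝ) := by
        have : P k ≤ 4 * h * P k := Nat.le_mul_of_pos_left _ (by omega)
        exact_mod_cast this
      have h6 : (h : ℝ) < P k := by exact_mod_cast ih.2
      have h7 : (h : ℝ) < P (k + 1) := by linarith [h2.2.1]
      exact_mod_cast h7
  refine ⟨P, hPp, fun k => ?_⟩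
  have h9 := (hF (P k) (hPp k).1.pos).2
  rw [← hPs] at h9
  exact h9

variable {P U : ℕ → ℕ}

/-- `D` -/
def DD (h : ℕ) (P U : ℕ → ℕ) (k : ℕ) : ℕ := 4 * h * U k * (4 * h * P k) ^ (h - 1)

/-- `N` -/
def NN (h : ℕ) (P U : ℕ → ℕ) (k : ℕ) : ℕ := U k * (4 * h * P k) ^ h

lemma Par.NN_eq (H : Par h P U α) (k : ℕ) : NN h P U k = P k * DD h P U k := by
  have hh := H.hh
  obtain ⟨n, rfl⟩ : ∃ n, h = n + 1 := ⟨h - 1, by omega⟩
  simp only [NN, DD, Nat.add_sub_cancel]
  ring

lemma Par.DD_pos (H : Par h P U α) (k : ℕ) : 0 < DD h P U k := by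
  have hh := H.hh
  have h2 := H.one k
  have h3 := (H.prime k).pos
  unfold DD
  positivity

lemma Par.NN_succ (H : Par h P U α) (k : ℕ) : 4 * h * NN h P U k ≤ U (k + 1) * (4 * h * P (k + 1)) :=
  H.gap k

lemma Par.NN_ge (H : Par h P U α) (k : ℕ) : k + 1 ≤ NN h P U k := by
  have hh := H.hh
  induction k with
  | zero =>
    have h2 := H.one 0
    have h3 := (H.prime 0).pos
    exact Nat.succ_le_of_lt (by unfold NN; positivity)
  | succ k ih =>
    have h2 := H.NN_succ k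
    have h3 : U (k + 1) * (4 * h * P (k + 1)) ≤ NN h P U (k + 1) :=
      Nat.mul_le_mul_left _ (Nat.le_self_pow (by omega) _)
    have h4 : 2 * NN h P U k ≤ 4 * h * NN h P U k := Nat.mul_le_mul_right _ (by omega)
    have h5 : 4 * h * NN h P U k ≤ NN h P U (k + 1) := h2.trans h3
    omega

lemma Par.count_P (H : Par h P U α) (k n : ℕ) (hn : NN h P U k ≤ n) :
    P k ≤ count (SS h P U) n := by
  refine le_trans ?_ (H.count_ge k n)
  refine le_min le_rfl ?_
  change P k ≤ n / DD h P U k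
  rw [Nat.le_div_iff_mul_le (H.DD_pos k), ← H.NN_eq]
  exact hn

lemma Par.count_D (H : Par h P U α) (k n : ℕ) (hn : n < NN h P U k)
    (h1 : 1 ≤ count (SS h P U) n) : n ≤ 2 * count (SS h P U) n * DD h P U k := by
  have h2 : min (P k) (n / DD h P U k) ≤ count (SS h P U) n := H.count_ge k n
  have h3 : n / DD h P U k < P k := by
    rw [Nat.div_lt_iff_lt_mul (H.DD_pos _), ← H.NN_eq]
    exact hn
  rw [min_eq_right h3.le] at h2
  have h6 : n < (n / DD h P U k + 1) * DD h P U k := by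
    have := Nat.lt_succ_self (n / DD h P U k)
    exact (Nat.div_lt_iff_lt_mul (H.DD_pos _)).1 this
  have h9 : (n / DD h P U k + 1) * DD h P U k ≤ 2 * count (SS h P U) n * DD h P U k :=
    Nat.mul_le_mul_right _ (by omega)
  omega

lemma Par.infinite (H : Par h P U α) : (SS h P U).Infinite := by
  have hh := H.hh
  apply Set.infinite_of_forall_exists_gt
  intro m
  refine ⟨el h (P (m + 1)) (U (m + 1)) 0, ⟨m + 1, 0, rfl⟩, ?_⟩
  have h2 := le_el (h := h) (U := U (m + 1)) (0 : ZMod (P (m + 1)))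
  have h3 := H.NN_succ m
  have h4 := H.NN_ge m
  have h5 : NN h P U m ≤ 4 * h * NN h P U m := Nat.le_mul_of_pos_left _ (by omega)
  omega

lemma Par.find (H : Par h P U α) (n : ℕ) (hn : NN h P U 0 ≤ n) :
    ∃ k, NN h P U k ≤ n ∧ n < NN h P U (k + 1) := by
  classical
  have hex : ∃ k, n < NN h P U k := ⟨n, H.NN_ge n⟩
  have h2 := Nat.find_spec hex
  have h3 : Nat.find hex ≠ 0 := by
    intro h0
    rw [h0] at h2
    omega
  obtain ⟨k, hk⟩ : ∃ k, Nat.find hex = k + 1 := ⟨Nat.find hex - 1, by omega⟩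
  refine ⟨k, ?_, by rw [← hk]; exact h2⟩
  exact not_lt.1 (Nat.find_min hex (by omega))

/-- bound for `D` -/
lemma DD_le (hh : 2 ≤ h) (hα0 : 0 ≤ α) (hα1 : α < 1) {k : ℕ} (hp : 0 < P k) :
    (DD h P (fun k => UU α h (P k)) k : ℝ) ≤
      8 * h * ((4 * h * P k : ℕ) : ℝ) ^ ((h : ℝ) * α / (1 - α) + (h - 1)) := by
  obtain ⟨-, h12, -⟩ := UU_bounds hh hα0 hα1 hp
  have hB0 : (0 : ℝ) < ((4 * h * P k : ℕ) : ℝ) := by
    have : 0 < 4 * h * P k := by positivity
    exact_mod_cast this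
  generalize hB : ((4 * h * P k : ℕ) : ℝ) = B at *
  have h13 : B ^ ((h : ℝ) * α / (1 - α) + (h - 1)) = B ^ (h * α / (1 - α)) * B ^ (h - 1) := by
    rw [Real.rpow_add hB0, ← Real.rpow_natCast B (h - 1), Nat.cast_sub (by omega)]
    simp
  have h14 : (DD h P (fun k => UU α h (P k)) k : ℝ) =
      4 * h * (UU α h (P k) : ℝ) * B ^ (h - 1) := by
    unfold DD
    rw [Nat.cast_mul, Nat.cast_pow, hB]
    push_cast
    rfl
  rw [h14, h13]
  calc 4 * (h : ℝ) * (UU α h (P k) : ℝ) * B ^ (h - 1)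
      ≤ 4 * h * (2 * B ^ (h * α / (1 - α))) * B ^ (h - 1) := by
        apply mul_le_mul_of_nonneg_right _ (by positivity)
        exact mul_le_mul_of_nonneg_left h12 (by positivity)
    _ = 8 * h * (B ^ (h * α / (1 - α)) * B ^ (h - 1)) := by ring

/-- comparison of consecutive classes -/
lemma next_le (hh : 2 ≤ h) {ρ : ℝ} (hρ : 1 ≤ ρ) {p q : ℕ} (hp : 0 < p) (hq0 : 0 < q)
    (hq : (q : ℝ) ≤ 10 * ((4 * h * p : ℕ) : ℝ) ^ ρ) :
    1 / ((40 * h) ^ (1 / ρ) * (4 * h)) * ((4 * h * q : ℕ) : ℝ) ^ (1 / ρ) ≤ p := by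
  have hh' : (2 : ℝ) ≤ h := by exact_mod_cast hh
  have h3 : ((4 * h * q : ℕ) : ℝ) = 4 * h * (q : ℝ) := by push_cast; ring
  have h4 : ((4 * h * q : ℕ) : ℝ) ≤ 40 * h * ((4 * h * p : ℕ) : ℝ) ^ ρ := by
    rw [h3]
    nlinarith
  have h5 : ((4 * h * q : ℕ) : ℝ) ^ (1 / ρ) ≤ (40 * h) ^ (1 / ρ) * ((4 * h * p : ℕ) : ℝ) := by
    calc ((4 * h * q : ℕ) : ℝ) ^ (1 / ρ) ≤ (40 * h * ((4 * h * p : ℕ) : ℝ) ^ ρ) ^ (1 / ρ) :=
          Real.rpow_le_rpow (by positivity) h4 (by positivity)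
      _ = (40 * h) ^ (1 / ρ) * ((4 * h * p : ℕ) : ℝ) := by
          rw [Real.mul_rpow (x := 40 * (h : ℝ)) (by positivity) (by positivity),
            ← Real.rpow_mul (by positivity), mul_one_div_cancel (by linarith), Real.rpow_one]
  have h6 : 0 < (40 * (h : ℝ)) ^ (1 / ρ) := by positivity
  rw [div_mul_eq_mul_div, one_mul, div_le_iff₀ (by positivity)]
  calc ((4 * h * q : ℕ) : ℝ) ^ (1 / ρ) ≤ (40 * h) ^ (1 / ρ) * ((4 * h * p : ℕ) : ℝ) := h5
    _ = p * ((40 * h) ^ (1 / ρ) * (4 * h)) := by push_cast; ring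

/-- the lower bound for the counting function -/
lemma lower (hh : 2 ≤ h) (hα0 : 0 ≤ α) (hα1 : α < 1)
    (H : Par h P (fun k => UU α h (P k)) α)
    (hPn : ∀ k, (P (k + 1) : ℝ) ≤
      10 * ((4 * h * P k : ℕ) : ℝ) ^ ((h : ℝ) / (1 + (h - 1) * α))) :
    ∃ c : ℝ, 0 < c ∧ ∀ n : ℕ, NN h P (fun k => UU α h (P k)) 0 ≤ n →
      c * (n : ℝ) ^ EE α h ≤ count (SS h P (fun k => UU α h (P k))) n := by
  have hh' : (2 : ℝ) ≤ h := by exact_mod_cast hh
  have h1α : 0 < 1 - α := by linarith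
  have hden : 0 < 1 + ((h : ℝ) - 1) * α := by
    have : 0 ≤ ((h : ℝ) - 1) * α := mul_nonneg (by linarith) hα0
    linarith
  have hE := EE_eq hh hα0 hα1
  have hρ1 : 1 ≤ (h : ℝ) / (1 + (h - 1) * α) := by
    rw [one_le_div hden]
    nlinarith
  have hw0 : 0 < (h : ℝ) * α / (1 - α) + (h - 1) := by
    have : 0 ≤ (h : ℝ) * α / (1 - α) := div_nonneg (by positivity) h1α.le
    linarith
  have hDD : ∀ k, 0 < P k → (DD h P (fun k => UU α h (P k)) k : ℝ) ≤
      8 * h * ((4 * h * P k : ℕ) : ℝ) ^ ((h : ℝ) * α / (1 - α) + (h - 1)) :=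
    fun k hp => DD_le hh hα0 hα1 hp
  generalize (h : ℝ) / (1 + (h - 1) * α) = ρ at *
  generalize (h : ℝ) * α / (1 - α) + (h - 1) = w at *
  generalize (fun k => UU α h (P k)) = U at *
  have ha0 : 0 < 1 / ((40 * (h : ℝ)) ^ (1 / ρ) * (4 * h)) := by positivity
  have hb0 : 0 < 1 / (16 * (h : ℝ)) := by positivity
  refine ⟨(1 / ((40 * (h : ℝ)) ^ (1 / ρ) * (4 * h))) ^ (1 - EE α h) *
    (1 / (16 * (h : ℝ))) ^ EE α h, by positivity, ?_⟩
  intro n hn
  have hn1 : 1 ≤ n := le_trans (H.NN_ge 0) hn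
  obtain ⟨k, hk1, hk2⟩ := H.find n hn
  have hPk := (H.prime k).pos
  have hPk' := (H.prime (k + 1)).pos
  have hx := H.count_P k n hk1
  have hy := H.count_D (k + 1) n hk2 (le_trans hPk hx)
  have hx2 := next_le hh hρ1 hPk hPk' (hPn k)
  have h11 := hDD (k + 1) hPk'
  have hx1 : (P k : ℝ) ≤ (count (SS h P U) n : ℝ) := by exact_mod_cast hx
  have h10 : (n : ℝ) ≤ 2 * (count (SS h P U) n : ℝ) * (DD h P U (k + 1) : ℝ) := by
    exact_mod_cast hy
  have hB0 : (0 : ℝ) < ((4 * h * P (k + 1) : ℕ) : ℝ) := by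
    have : 0 < 4 * h * P (k + 1) := by positivity
    exact_mod_cast this
  have ht0 : (0 : ℝ) ≤ (count (SS h P U) n : ℝ) := by positivity
  generalize (count (SS h P U) n : ℝ) = t at *
  generalize ((4 * h * P (k + 1) : ℕ) : ℝ) = B at *
  have h15 : (n : ℝ) ≤ t * (16 * h * B ^ w) := by
    calc (n : ℝ) ≤ 2 * t * (DD h P U (k + 1) : ℝ) := h10
      _ ≤ 2 * t * (8 * h * B ^ w) := mul_le_mul_of_nonneg_left h11 (by positivity)
      _ = t * (16 * h * B ^ w) := by ring
  have hy2 : 1 / (16 * (h : ℝ)) * (n / B ^ w) ≤ t := by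
    rw [div_mul_div_comm, one_mul, div_le_iff₀ (by positivity)]
    linarith
  exact interp ha0 hb0 hB0 (by exact_mod_cast hn1 : (0 : ℝ) < n)
    (by linarith : (0 : ℝ) < ρ) hw0 hE (hx2.trans hx1) hy2

/-- the upper density -/
lemma upper (hh : 2 ≤ h) (hα0 : 0 ≤ α) (hα1 : α < 1)
    (H : Par h P (fun k => UU α h (P k)) α) (m : ℕ) :
    1 / (8 * h) * ((NN h P (fun k => UU α h (P k)) m : ℕ) : ℝ) ^ ((1 - α) / h) ≤
      count (SS h P (fun k => UU α h (P k))) (NN h P (fun k => UU α h (P k)) m) := by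
  have hh' : (2 : ℝ) ≤ h := by exact_mod_cast hh
  have h1α : 0 < 1 - α := by linarith
  have h2 := H.count_P m _ le_rfl
  have h3 : (NN h P (fun k => UU α h (P k)) m : ℝ) ≤
    2 * ((4 * h * P m : ℕ) : ℝ) ^ ((h : ℝ) / (1 - α)) := UU_size hh hα0 hα1 (H.prime m).pos
  have h6 : (P m : ℝ) ≤ count (SS h P (fun k => UU α h (P k)))
    (NN h P (fun k => UU α h (P k)) m) := by exact_mod_cast h2
  refine le_trans ?_ h6
  generalize NN h P (fun k => UU α h (P k)) m = N at *
  have h5 : ((4 * h * P m : ℕ) : ℝ) = 4 * h * (P m : ℝ) := by push_cast; ring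
  have hB0 : (0 : ℝ) < ((4 * h * P m : ℕ) : ℝ) := by
    have h3 := (H.prime m).pos
    have : 0 < 4 * h * P m := by positivity
    exact_mod_cast this
  generalize ((4 * h * P m : ℕ) : ℝ) = B at *
  have he0 : 0 < (1 - α) / h := by positivity
  have he1 : (1 - α) / h ≤ 1 := by
    rw [div_le_one (by positivity)]
    linarith
  have h4 : (N : ℝ) ^ ((1 - α) / h) ≤ 2 * B := by
    calc (N : ℝ) ^ ((1 - α) / h) ≤ (2 * B ^ ((h : ℝ) / (1 - α))) ^ ((1 - α) / h) :=
          Real.rpow_le_rpow (by positivity) h3 he0.le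
      _ = 2 ^ ((1 - α) / h) * B := by
          rw [Real.mul_rpow (by norm_num) (by positivity), ← Real.rpow_mul hB0.le]
          congr 1
          rw [div_mul_div_cancel₀ h1α.ne', div_self (by positivity), Real.rpow_one]
      _ ≤ 2 ^ (1 : ℝ) * B := by
          apply mul_le_mul_of_nonneg_right _ hB0.le
          exact Real.rpow_le_rpow_of_exponent_le (by norm_num) he1
      _ = 2 * B := by rw [Real.rpow_one]
  calc 1 / (8 * (h : ℝ)) * (N : ℝ) ^ ((1 - α) / h) ≤ 1 / (8 * h) * (2 * B) :=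
        mul_le_mul_of_nonneg_left h4 (by positivity)
    _ = P m := by
        rw [h5]
        field_simp
        ring

theorem main (hh : 2 ≤ h) (hα0 : 0 ≤ α) (hα1 : α < 1) :
    ∃ S : Set ℕ, S.Infinite ∧ (∀ s ∈ S, 1 ≤ s) ∧ IsStrongB α h S ∧ ∃ c : ℝ, 0 < c ∧
      (∀ᶠ n : ℕ in Filter.atTop, c * (n : ℝ) ^ EE α h ≤ count S n) ∧
      ∃ᶠ n : ℕ in Filter.atTop, c * (n : ℝ) ^ ((1 - α) / h) ≤ count S n := by
  have hh' : (2 : ℝ) ≤ h := by exact_mod_cast hh
  have hden : 0 < 1 + ((h : ℝ) - 1) * α := by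
    have : 0 ≤ ((h : ℝ) - 1) * α := mul_nonneg (by linarith) hα0
    linarith
  have hρ1 : 1 ≤ (h : ℝ) / (1 + (h - 1) * α) := by
    rw [one_le_div hden]
    nlinarith
  obtain ⟨P, hPp, hPn⟩ := exists_seq (h := h) hh hρ1
  have H : Par h P (fun k => UU α h (P k)) α :=
    { hh := hh
      prime := fun k => (hPp k).1
      lt := fun k => (hPp k).2
      one := fun k => (UU_bounds hh hα0 hα1 (hPp k).1.pos).2.2
      str := fun k => UU_strong hh hα0 hα1 (hPp k).1.pos
      gap := fun k => UU_gap hh hα0 hα1 (hPp k).1.pos (hPp (k + 1)).1.pos (hPn k).1 }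
  obtain ⟨c1, hc1, hlow⟩ := lower hh hα0 hα1 H (fun k => (hPn k).2)
  refine ⟨SS h P (fun k => UU α h (P k)), H.infinite, H.pos, H.strong hα0,
    min c1 (1 / (8 * h)), by positivity, ?_, ?_⟩
  · filter_upwards [Filter.eventually_ge_atTop (NN h P (fun k => UU α h (P k)) 0)] with n hn
    refine le_trans ?_ (hlow n hn)
    exact mul_le_mul_of_nonneg_right (min_le_left _ _) (by positivity)
  · rw [Filter.frequently_atTop]
    intro m
    refine ⟨_, (Nat.le_succ m).trans (H.NN_ge m), ?_⟩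
    refine le_trans ?_ (upper hh hα0 hα1 H m)
    exact mul_le_mul_of_nonneg_right (min_le_right _ _) (by positivity)

end main

end Pool.Agent.StrongBh.NearOpt
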